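import Pool.Agent.H219.WhR.Cyc
import Pool.Agent.H290R4.ChernZ

/-!
# Cyclic one-cocycles do not detect the Whitehead group: residually finite and linear groups
-/

set_option autoImplicit false

namespace Pool.Agent.Results.MP_8f66f0_al.CyclicTrace

open H219.WhR

universe u v w

/-- For every group `Γ` and every invertible matrix `A` over `ℤΓ` there is `γ ∈ Γ` such that every
cyclic `1`-cocycle `f` (a Hochschild `1`-cocycle with `f (1, g) = 0`, equivalently
`f (x, y) = - f (y, x)`) with values in an abelian group `M` takes the same value on `A` and on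
`γ`, provided that either
(a) for every finitely generated subgroup `H` and every `g ≠ 1` in `H` such that `f` does not
vanish on all pairs of elements of `H` with product `g` there is a prime `p` such that `M` has no
`p`-torsion, `M` is `p`-adically separated and `g` is not conjugate in `H` to `g ^ (p ^ j)`,
`j ≥ 1`; or
(b) `M` is torsion-free and `p`-adically separated for all `p` (for example `M = ℤ`) and `Γ` is
locally residually finite, or linear over some field. -/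
theorem result (Γ : Type u) [Group Γ] (n : ℕ)
    (A : (Matrix (Fin n) (Fin n) (MonoidAlgebra ℤ Γ))ˣ) :
    ∃ γ : Γ, ∀ (M : Type v) [AddCommGroup M] (f : Γ → Γ → M),
      (∀ x y z : Γ, f (x * y) z - f x (y * z) + f (z * x) y = 0) → (∀ g : Γ, f 1 g = 0) →
      ((∀ H : Subgroup Γ, H.FG → ∀ g ∈ H, g ≠ 1 → (∃ x ∈ H, f (x⁻¹ * g) x ≠ 0) →
          ∃ p : ℕ, p.Prime ∧ (∀ x : M, p • x = 0 → x = 0) ∧
            (∀ x : M, (∀ m : ℕ, ∃ y : M, p ^ m • y = x) → x = 0) ∧
            ∀ j, 1 ≤ j → ∀ c ∈ H, c * g * c⁻¹ ≠ g ^ p ^ j) ∨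
        ((∀ p : ℕ, p.Prime → (∀ x : M, p • x = 0 → x = 0) ∧
            (∀ x : M, (∀ m : ℕ, ∃ y : M, p ^ m • y = x) → x = 0)) ∧
          ((∀ H : Subgroup Γ, H.FG → Group.ResiduallyFinite H) ∨
            (∃ (K : Type w) (_ : Field K) (N : ℕ) (φ : Γ →* GL (Fin N) K),
              Function.Injective φ)))) →
      (∑ i, ∑ j, ((A⁻¹).val i j).coeff.sum fun g b =>
          (A.val j i).coeff.sum fun h a => (b * a) • f g h) = f γ⁻¹ γ := by
  refine ⟨gamU A, ?_⟩
  intro M _ f hf hf1 hG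
  have hrf : (∀ p : ℕ, p.Prime → (∀ x : M, p • x = 0 → x = 0) ∧
      (∀ x : M, (∀ m : ℕ, ∃ y : M, p ^ m • y = x) → x = 0)) →
      (∀ H : Subgroup Γ, H.FG → Group.ResiduallyFinite H) →
      ∀ H : Subgroup Γ, H.FG → ∀ g ∈ H, g ≠ 1 → (∃ x ∈ H, f (x⁻¹ * g) x ≠ 0) →
          ∃ p : ℕ, p.Prime ∧ (∀ x : M, p • x = 0 → x = 0) ∧
            (∀ x : M, (∀ m : ℕ, ∃ y : M, p ^ m • y = x) → x = 0) ∧
            ∀ j, 1 ≤ j → ∀ c ∈ H, c * g * c⁻¹ ≠ g ^ p ^ j := by
    intro hM h1 H hH g hg hg1 _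
    have := h1 H hH
    obtain ⟨p, hp, hc⟩ := Pool.Agent.H290R4.ChernZ.exists_prime (⟨g, hg⟩ : H)
      (fun h0 => hg1 (congrArg Subtype.val h0))
    refine ⟨p, hp, (hM p hp).1, (hM p hp).2, fun j hj c hcH heq =>
      hc j hj ⟨c, hcH⟩ (Subtype.ext ?_)⟩
    simpa using heq
  have hG2 : ∀ H : Subgroup Γ, H.FG → ∀ g ∈ H, g ≠ 1 → (∃ x ∈ H, f (x⁻¹ * g) x ≠ 0) →
          ∃ p : ℕ, p.Prime ∧ (∀ x : M, p • x = 0 → x = 0) ∧
            (∀ x : M, (∀ m : ℕ, ∃ y : M, p ^ m • y = x) → x = 0) ∧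
            ∀ j, 1 ≤ j → ∀ c ∈ H, c * g * c⁻¹ ≠ g ^ p ^ j := by
    rcases hG with h1 | ⟨hM, h1 | ⟨K, iK, N, φ, hφ⟩⟩
    · exact h1
    · exact hrf hM h1
    · refine hrf hM fun H hH => ?_
      have : Group.FG H := (Group.fg_iff_subgroup_fg H).2 hH
      exact Pool.Agent.H290R4.ChernZ.malcev (φ.comp H.subtype) (hφ.comp H.subtype_injective)
  exact units_main A f hf hf1 (hG2 _ (suppGrp_fg A))

end Pool.Agent.Results.MP_8f66f0_al.CyclicTrace
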