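import Pool.Agent.H219.Wh.Main

/-!
# Determinants of invertible matrices over `ℤΓ` under representations over group algebras of
abelian groups, modulo `p`
-/

set_option autoImplicit false

namespace Pool.Agent.Results.MP_8f66f0_al.DeterminantsModP

open Pool.Agent.H23R2 H219.Wh

universe u v w

/-- For every group `Γ` and every invertible matrix `A` over `ℤΓ` there is `γ ∈ Γ` such that for
every odd prime `p` for which `p`-th roots are unique in `Γ` and no nontrivial element of `Γ` is
infinitely `p`-divisible, every abelian group `Q` which is residually a finite cyclic `p`-group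
(for example every finite abelian `p`-group), every commutative ring `S` without `p`-torsion and
every representation `ρ : Γ → GL_d(S[Q])`: the quotient `det ρ(A) / det ρ(γ)` is congruent modulo
`p` to the constant `det ρ₀(A) / det ρ₀(γ)`, where `ρ₀ : Γ → GL_d(S)` is the augmentation of `ρ`.
Here `ρ(A)` is the block matrix of size `n d` with blocks `ρ(A i j)` and the augmentation of an
element of `S[Q]` is the sum of its coefficients. (For `S = ℤ` and `d = 1` the constant is `1` or
`-1`: for every homomorphism `f : Γ → Q` the determinant of the image of `A` over `ℤQ` is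
congruent to `f(γ)` or `-f(γ)` modulo `p`.) -/
theorem result (Γ : Type u) [Group Γ] (n : ℕ)
    (A : (Matrix (Fin n) (Fin n) (MonoidAlgebra ℤ Γ))ˣ) :
    ∃ γ : Γ, ∀ p : ℕ, p.Prime → p ≠ 2 →
      (∀ x y : Γ, x ^ p = y ^ p → x = y) →
      (∀ g : Γ, g ≠ 1 → ∃ k : ℕ, ∀ x : Γ, x ^ (p ^ k) ≠ g) →
      ∀ (Q : Type w) [CommGroup Q],
        (∀ q : Q, q ≠ 1 → ∃ (i : ℕ) (χ : Q →* Multiplicative (ZMod (p ^ i))), χ q ≠ 1) →
      ∀ (S : Type v) [CommRing S], (∀ s : S, (p : S) * s = 0 → s = 0) →
      ∀ (d : ℕ) (ρ : Γ →* GL (Fin d) (MonoidAlgebra S Q)) (D : MonoidAlgebra S Q),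
        D = (Matrix.of fun x y : Fin n × Fin d =>
          (A.val x.1 y.1).coeff.sum fun g a =>
            (a : MonoidAlgebra S Q) * (ρ g).val x.2 y.2).det →
        ∃ w : MonoidAlgebra S Q,
          D * MonoidAlgebra.single 1 ((ρ γ).val.det.coeff.sum fun _ s => s) =
            MonoidAlgebra.single 1 (D.coeff.sum fun _ s => s) * (ρ γ).val.det +
              (p : MonoidAlgebra S Q) * w := by
  classical
  refine ⟨gamA A, ?_⟩
  intro p hp hp2 hroot hdiv Q _ hQ S _ hS d ρ D hD
  let ρ' : Γ →* Matrix (Fin d) (Fin d) (MonoidAlgebra S Q) :=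
    (Units.coeHom (Matrix (Fin d) (Fin d) (MonoidAlgebra S Q))).comp ρ
  obtain ⟨s, w, hw⟩ := det_main A hp hp2 hroot hdiv hS hQ ρ'
  have hblock : (block ρ' A.val).det = D := by
    rw [hD]
    congr 1
    ext1 x y
    simp only [block, Matrix.of_apply]
    rw [lin_apply]
    rfl
  have hργ : (ρ' (gamA A)).det = (ρ (gamA A)).val.det := rfl
  rw [hblock, hργ] at hw
  set δ := (ρ (gamA A)).val.det with hδ
  have hs : aug D = s * aug δ + p * aug w := by
    rw [hw, map_add, map_mul, aug_single, map_mul, map_natCast]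
  rw [← aug_apply, ← aug_apply, hs]
  refine ⟨w * MonoidAlgebra.single 1 (aug δ) - MonoidAlgebra.single 1 (aug w) * δ, ?_⟩
  have h4 : (p : MonoidAlgebra S Q) * MonoidAlgebra.single 1 (aug w) =
      MonoidAlgebra.single 1 ((p : S) * aug w) := by
    rw [MonoidAlgebra.natCast_def, MonoidAlgebra.single_mul_single, one_mul]
  have h5 : (MonoidAlgebra.single 1 (s * aug δ) : MonoidAlgebra S Q) =
      MonoidAlgebra.single 1 s * MonoidAlgebra.single 1 (aug δ) := by
    rw [MonoidAlgebra.single_mul_single, one_mul]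
  rw [MonoidAlgebra.single_add, h5, ← h4, hw]
  ring

end Pool.Agent.Results.MP_8f66f0_al.DeterminantsModP
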