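import Pool.Agent.H219.Wh.Lett

/-!
# The Dennis trace of an invertible matrix over `ℤΓ`, `p`-adically
-/

set_option autoImplicit false

namespace Pool.Agent.Results.MP_8f66f0_al.PAdicDennisTrace

open Pool.Agent.H23R2 H219.Wh

universe u v

/-- For every group `Γ` and every invertible matrix `A` over `ℤΓ` there is `γ ∈ Γ` such that for
every odd prime `p` for which `p`-th roots are unique in `Γ` and no nontrivial element of `Γ` is
infinitely `p`-divisible, for every Hochschild `1`-cocycle `f` on `Γ` with values in an abelian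
group `M` and for all `N`: the value of `f` on the Dennis trace of `A` is
`f(γ⁻¹, γ) + p m + p ^ N m'` where `m` lies in the subgroup generated by the elements `f(1, g)`. -/
theorem result (Γ : Type u) [Group Γ] (n : ℕ)
    (A : (Matrix (Fin n) (Fin n) (MonoidAlgebra ℤ Γ))ˣ) :
    ∃ γ : Γ, ∀ p : ℕ, p.Prime → p ≠ 2 →
      (∀ x y : Γ, x ^ p = y ^ p → x = y) →
      (∀ g : Γ, g ≠ 1 → ∃ k : ℕ, ∀ x : Γ, x ^ (p ^ k) ≠ g) →
      ∀ (M : Type v) [AddCommGroup M] (f : Γ → Γ → M),
        (∀ x y z : Γ, f (x * y) z - f x (y * z) + f (z * x) y = 0) →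
        ∀ N : ℕ, ∃ m ∈ AddSubgroup.closure (Set.range fun g => f 1 g), ∃ m' : M,
          (∑ i, ∑ j, ((A⁻¹).val i j).coeff.sum fun g b =>
              (A.val j i).coeff.sum fun h a => (b * a) • f g h)
            = f γ⁻¹ γ + p • m + (p ^ N) • m' := by
  classical
  refine ⟨gamA A, ?_⟩
  intro p hp hp2 hroot hdiv M _ f hf N
  have hA : ∀ i j g, (A.val i j).coeff g ≠ 0 → g ∈ supp A.val ∪ supp (A⁻¹).val := fun i j g hg =>
    Finset.mem_union_left _ (mem_supp _ i j g hg)
  have hB : ∀ i j g, ((A⁻¹).val i j).coeff g ≠ 0 → g ∈ supp A.val ∪ supp (A⁻¹).val :=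
    fun i j g hg => Finset.mem_union_right _ (mem_supp _ i j g hg)
  have hcoc := isCoc_of_hochschild f hf
  have h1 := pairing_eq f (A⁻¹).val A.val _ hA hB
  unfold pairing at h1
  rw [h1]
  -- pass to `M / p ^ (N+1) M`
  let φ : M →+ M := nsmulAddMonoidHom (p ^ (N + 1))
  let q : M →+ M ⧸ φ.range := QuotientAddGroup.mk' φ.range
  have hM : ∀ x : M ⧸ φ.range, (p ^ (N + 1)) • x = 0 := by
    intro x
    obtain ⟨x, rfl⟩ := QuotientAddGroup.mk'_surjective φ.range x
    rw [← map_nsmul]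
    exact (QuotientAddGroup.eq_zero_iff _).2 ⟨x, rfl⟩
  have hcoc' : IsCoc (fun w x => q (f (x⁻¹ * w) x)) := by
    intro w x y
    show q _ = q _ + q _
    rw [← map_add]
    exact congrArg q (hcoc w x y)
  obtain ⟨m, hm, hD⟩ := gamA_spec A hp hp2 hroot hdiv N hM hcoc'
  have e1 : DsumZ (cf A.val) (cf (A⁻¹).val) (supp A.val ∪ supp (A⁻¹).val)
      (fun w x => q (f (x⁻¹ * w) x)) =
      q (DsumZ (cf A.val) (cf (A⁻¹).val) (supp A.val ∪ supp (A⁻¹).val)
        (fun w x => f (x⁻¹ * w) x)) := by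
    unfold DsumZ
    rw [map_sum]
    apply Finset.sum_congr rfl
    intro y _
    rw [map_zsmul]
  rw [e1] at hD
  have hlift : ∃ m0 ∈ AddSubgroup.closure (Set.range fun g => f 1 g), q m0 = m := by
    have h2 : AddSubgroup.closure (Set.range fun g => q (f (g⁻¹ * g) g)) =
        (AddSubgroup.closure (Set.range fun g => f 1 g)).map q := by
      rw [AddMonoidHom.map_closure, ← Set.range_comp]
      congr 1
      ext x
      simp
    rw [h2] at hm
    exact hm
  obtain ⟨m0, hm0, rfl⟩ := hlift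
  have h3 : q (DsumZ (cf A.val) (cf (A⁻¹).val) (supp A.val ∪ supp (A⁻¹).val)
      (fun w x => f (x⁻¹ * w) x) - (f (gamA A)⁻¹ (gamA A) + p • m0)) = 0 := by
    rw [map_sub, hD, map_add, map_nsmul, mul_one, sub_self]
  obtain ⟨x, hx⟩ := (QuotientAddGroup.eq_zero_iff _).1 h3
  refine ⟨m0, hm0, p • x, ?_⟩
  have hx' : (p ^ (N + 1)) • x = DsumZ (cf A.val) (cf (A⁻¹).val) (supp A.val ∪ supp (A⁻¹).val)
      (fun w x => f (x⁻¹ * w) x) - (f (gamA A)⁻¹ (gamA A) + p • m0) := hx
  rw [smul_smul, ← pow_succ, hx']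
  abel

end Pool.Agent.Results.MP_8f66f0_al.PAdicDennisTrace
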